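import Pool.Agent.H.MP_e16607_lc.Defs
import Pool.Agent.Lib.helper25.CX2b
import Pool.Agent.Lib.lead.CXGraphRed

namespace Pool.Agent.H.MP_e16607_lc

open Pool.Agent.Lib.CX Pool.Agent.Lib.CX2

theorem clq {V : Type} (G : SimpleGraph V) (H K : Finset V) (h : K ⊆ H) (hK : G.IsClique K) :
    (K.card : ℕ∞) ≤ (G.induce H).chromaticNumber := by
  classical
  have : (G.induce H).IsClique (K.subtype (· ∈ (H : Set V))) := fun u hu v hv e =>
    hK (by simpa using hu) (by simpa using hv) fun e' => e (Subtype.ext e')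
  have h2 := this.card_le_chromaticNumber
  rwa [Finset.card_subtype, Finset.filter_true_of_mem (p := fun x => x ∈ (H : Set V)) fun x hx => h hx] at h2

theorem ind {V : Type} [DecidableEq V] (G : SimpleGraph V) (k : ℕ) (c : G.Coloring ℕ) (w : V)
    (hw : ∀ v, v ≠ w → G.Adj w v)
    (h : ∀ H : Finset V, (G.induce H).Connected → ((H.image c).card : ℕ∞) ≤ (G.induce H).chromaticNumber + k)
    (I : Finset V) (h1 : w ∉ I) (h2 : ∀ u ∈ I, ∀ v ∈ I, ¬G.Adj u v) : (I.image c).card ≤ k + 1 := by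
  have a := h (insert w I) ((SimpleGraph.connected_iff_exists_forall_reachable _).2 ⟨⟨w, by simp⟩, fun v => by
    by_cases e : v.1 = w
    · exact (Subtype.ext e.symm : (⟨w, by simp⟩ : ((insert w I : Finset V) : Set V)) = v) ▸ .rfl
    · exact SimpleGraph.Adj.reachable (hw _ e)⟩)
  have b : (G.induce (insert w I : Finset V)).Colorable 2 :=
    ⟨SimpleGraph.Coloring.mk (fun u => if u.1 = w then 0 else 1) fun {u v} e => by
      have e' : G.Adj u.1 v.1 := e
      have hu := u.2
      have hv := v.2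
      simp only [Finset.coe_insert, Set.mem_insert_iff, Finset.mem_coe] at hu hv
      by_cases a : u.1 = w <;> by_cases b : v.1 = w <;> simp [a, b]
      · exact e'.ne (a.trans b.symm)
      · exact h2 _ (hu.resolve_left a) _ (hv.resolve_left b) e'⟩
  have d := a.trans (add_le_add b.chromaticNumber_le le_rfl)
  rw [Finset.image_insert, Finset.card_insert_of_notMem (by
    simp only [Finset.mem_image, not_exists, not_and]
    exact fun v hv e => c.valid (hw v fun e => h1 (e ▸ hv)) e.symm)] at d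
  have : (I.image c).card + 1 ≤ 2 + k := by exact_mod_cast d
  omega

abbrev W := ℕ × ℕ × ℕ × ℕ
abbrev I := List Unit × List (Cl3 ℕ)

def ww (a : I) : ℕ := a.1.length + 3 * a.2.length
def kk (a : I) : ℕ := a.2.length + 2 * a.1.length
def rr (a : I) : ℕ := (kk a + 2) * (kk a + 1) + 1
def cl (a : I) (i : ℕ) : Cl3 ℕ := a.2.getD i ((ww a, true), (ww a, true), (ww a, true))
def lit (a : I) (u : W) : ℕ × Bool :=
  if u.1 = 0 then (if u.2.2.1 = 0 then (cl a u.2.1).1 else if u.2.2.1 = 1 then (cl a u.2.1).2.1 else (cl a u.2.1).2.2)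
  else if u.2.2.1 = 2 then (ww a, true) else (u.2.1, decide (u.2.2.1 = 1))
def adj (a : I) (u v : W) : Prop :=
  u.1 = 2 ∨ v.1 = 2 ∨ ((u.1 ≠ v.1 ∨ u.2.1 ≠ v.2.1) ∧ u.2.2.2 ≠ v.2.2.2) ∨
    ((lit a u).1 = (lit a v).1 ∧ (lit a u).2 ≠ (lit a v).2 ∧ (u.1 ≠ v.1 ∨ u.2.1 ≠ v.2.1 ∨ u.1 = 1))
def T (a : I) (u : W) : Prop :=
  (((u.1 = 0 ∧ u.2.1 < a.2.length + 2) ∨ (u.1 = 1 ∧ u.2.1 < a.1.length)) ∧ u.2.2.1 < 3 ∧ u.2.2.2 < rr a) ∨
    u = (2, 0, 0, 0)

instance (a u v) : Decidable (adj a u v) := by unfold adj; infer_instance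

theorem adj_symm {a u v} (h : adj a u v) : adj a v u := by
  unfold adj at *
  rcases h with h | h | h | ⟨h1, h2, h⟩
  · exact .inr (.inl h)
  · exact .inl h
  · exact .inr (.inr (.inl (by omega)))
  · exact .inr (.inr (.inr ⟨h1.symm, h2.symm, by omega⟩))

variable {V : Type} (G : SimpleGraph V) (a : I) (g : V → W)

theorem fwd (hg : Function.Injective g) (hT : ∀ u, T a (g u)) (hA : ∀ u v, G.Adj u v ↔ u ≠ v ∧ adj a (g u) (g v))
    (h : ¬Q3 a.1.length a.2) : Disc G (kk a) := by
  classical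
  simp only [Q3, not_forall, not_exists, not_and] at h
  obtain ⟨x, hx⟩ := h
  let col : W → ℕ := fun u => if u.1 = 0 then 4 * u.2.1 else if u.1 = 1 then
    (if u.2.2.1 = (x u.2.1).toNat then 4 * u.2.1 + 2 else 4 * u.2.1 + 1) else 3
  have tb : ∀ b : Bool, b.toNat ≤ 1 := Bool.toNat_le
  have pr : ∀ u v, G.Adj u v → col (g u) ≠ col (g v) := fun u v e => by
    obtain ⟨e1, e2⟩ := (hA u v).1 e
    have e3 : g u ≠ g v := fun h => e1 (hg h)
    have t1 := hT u
    have t2 := hT v
    generalize g u = p at *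
    generalize g v = q at *
    obtain ⟨t, i, o, j⟩ := p
    obtain ⟨t', i', o', j'⟩ := q
    intro e4
    have := tb (x i)
    simp only [T, col, Prod.mk.injEq, ne_eq] at t1 t2 e3 e4
    have : t = t' ∧ i = i' := by split_ifs at e4 <;> omega
    obtain ⟨rfl, rfl⟩ := this
    simp only [adj, ne_eq, not_true, false_or, or_self, false_and] at e2
    rcases e2 with e2 | e2 | ⟨e5, e6, rfl⟩
    · omega
    · omega
    · simp only [lit, one_ne_zero, if_false, if_true] at e4 e5 e6
      have : i < ww a := by unfold ww; omega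
      split_ifs at e4 e5 e6 <;> simp at e5 e6 <;> omega
  let A : Finset ℕ := (Finset.range (a.2.length + 2)).image (4 * ·) ∪
    ((Finset.range a.1.length).image (4 * · + 1) ∪ (Finset.range a.1.length).image (4 * · + 2))
  have cA : A.card ≤ kk a + 2 := by
    refine (Finset.card_union_le _ _).trans ((add_le_add Finset.card_image_le ((Finset.card_union_le _ _).trans
      (add_le_add Finset.card_image_le Finset.card_image_le))).trans ?_)
    simp [kk]; omega
  have mA : ∀ u, (g u).1 ≠ 2 → col (g u) ∈ A := fun u e => by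
    have t1 := hT u
    generalize g u = p at *
    obtain ⟨t, i, o, j⟩ := p
    simp only [T, col, A, Prod.mk.injEq, Finset.mem_union, Finset.mem_image, Finset.mem_range] at t1 e ⊢
    split_ifs
    · exact .inl ⟨i, by omega, rfl⟩
    · exact .inr (.inr ⟨i, by omega, rfl⟩)
    · exact .inr (.inl ⟨i, by omega, rfl⟩)
    · omega
  have key : ∀ H : Finset V, (∀ u ∈ H, (g u).1 ≠ 2) → kk a + 2 ≤ (H.image fun u => col (g u)).card →
      ∃ u ∈ H, ∃ v ∈ H, G.Adj u v := fun H h1 h2 => by
    by_contra! n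
    have e := Finset.eq_of_subset_of_card_le (s := H.image fun u => col (g u)) (t := A)
      (Finset.image_subset_iff.2 fun u hu => mA u (h1 u hu)) (cA.trans h2)
    have s0 : ∀ i, ∃ u, i < a.2.length → u ∈ H ∧ (g u).1 = 0 ∧ (g u).2.1 = i := fun i => by
      by_cases hi : i < a.2.length + 2
      · have : 4 * i ∈ A := Finset.mem_union_left _ (Finset.mem_image_of_mem _ (Finset.mem_range.2 hi))
        rw [← e, Finset.mem_image] at this
        obtain ⟨u, hu, e⟩ := this
        refine ⟨u, fun _ => ⟨hu, ?_⟩⟩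
        simp only [col] at e
        split_ifs at e <;> omega
      · have : 4 * 0 ∈ A := Finset.mem_union_left _ (Finset.mem_image_of_mem _ (Finset.mem_range.2 (by omega)))
        rw [← e, Finset.mem_image] at this
        obtain ⟨u, -⟩ := this
        exact ⟨u, by omega⟩
    choose s hs using s0
    have s1 : ∀ i < a.1.length, ∃ u ∈ H, (g u).1 = 1 ∧ lit a (g u) = (i, x i) := fun i hi => by
      have : 4 * i + 2 ∈ A := Finset.mem_union_right _ (Finset.mem_union_right _
        (Finset.mem_image_of_mem _ (Finset.mem_range.2 hi)))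
      rw [← e, Finset.mem_image] at this
      obtain ⟨u, hu, e⟩ := this
      refine ⟨u, hu, ?_⟩
      simp only [col] at e
      split_ifs at e with p1 p2 p3 <;> try omega
      obtain rfl : (g u).2.1 = i := by omega
      refine ⟨p2, ?_⟩
      simp only [lit, p2, p3]
      cases x (g u).2.1 <;> simp
    have nc : ∀ u ∈ H, ∀ v ∈ H, ((g u).1 ≠ (g v).1 ∨ (g u).2.1 ≠ (g v).2.1) → (lit a (g u)).1 = (lit a (g v)).1 →
        (lit a (g u)).2 = (lit a (g v)).2 := fun u hu v hv e1 e2 => by
      by_contra e3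
      exact n u hu v hv ((hA u v).2 ⟨by rintro rfl; simp at e1, .inr (.inr (.inr ⟨e2, e3, by tauto⟩))⟩)
    obtain ⟨C, hC, hn⟩ := hx (fun y => if y < a.1.length then x y else
      decide (∃ i < a.2.length, lit a (g (s i)) = (y, true))) fun i hi => by simp [hi]
    obtain ⟨i, i1, rfl⟩ := List.getElem_of_mem hC
    obtain ⟨u1, u2, u3⟩ := hs i i1
    have : (if (lit a (g (s i))).1 < a.1.length then x (lit a (g (s i))).1 else
        decide (∃ j < a.2.length, lit a (g (s j)) = ((lit a (g (s i))).1, true))) = (lit a (g (s i))).2 := by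
      split
      · obtain ⟨v, v1, v2, v3⟩ := s1 _ ‹_›
        rw [nc _ u1 v v1 (by omega) (by rw [v3]), v3]
      · cases e : (lit a (g (s i))).2
        · simp only [decide_eq_false_iff_not, not_exists, not_and]
          intro j j1 e2
          obtain ⟨v1, v2, v3⟩ := hs j j1
          by_cases e3 : i = j
          · subst e3; rw [e2] at e; simp at e
          · have := nc _ u1 _ v1 (by omega) (by rw [e2])
            rw [e, e2] at this; simp at this
        · exact decide_eq_true ⟨i, i1, by rw [← e]⟩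
    have e4 : cl a i = a.2[i] := by simp [cl, List.getD_eq_getElem?_getD, i1]
    apply hn
    generalize hl : lit a (g (s i)) = l at this
    simp only [lit, u2, u3, if_true, e4] at hl
    unfold Cl3.ok
    split_ifs at hl <;> subst hl <;> simp only [this, true_or, or_true]
  refine ⟨SimpleGraph.Coloring.mk (fun u => col (g u)) fun {u v} => pr u v, fun H => ?_⟩
  change ((H.image fun u => col (g u)).card : ℕ∞) ≤ _
  have fin : ∀ K ⊆ H, G.IsClique (K : Set V) → (H.image fun u => col (g u)).card ≤ K.card + kk a →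
      ((H.image fun u => col (g u)).card : ℕ∞) ≤ (G.induce H).chromaticNumber + kk a := fun K h1 h2 h3 =>
    le_trans (by exact_mod_cast h3) (add_le_add (clq G H K h1 h2) le_rfl)
  have c2 : ∀ H : Finset V, (∀ u ∈ H, (g u).1 ≠ 2) → ∃ K ⊆ H, G.IsClique (K : Set V) ∧
      (H.image fun u => col (g u)).card ≤ K.card + kk a := fun H h1 => by
    by_cases h2 : kk a + 2 ≤ (H.image fun u => col (g u)).card
    · obtain ⟨u, hu, v, hv, e⟩ := key H h1 h2
      refine ⟨{u, v}, by simp [Finset.insert_subset_iff, hu, hv], by simp [e], ?_⟩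
      have := (Finset.card_le_card (Finset.image_subset_iff.2 fun u hu => mA u (h1 u hu))).trans cA
      rw [Finset.card_pair e.ne]; omega
    · rcases H.eq_empty_or_nonempty with rfl | ⟨u, hu⟩
      · exact ⟨∅, by simp⟩
      · exact ⟨{u}, by simpa using hu, by simp, by simp; omega⟩
  by_cases hw : ∃ w ∈ H, (g w).1 = 2
  · obtain ⟨w, w1, w2⟩ := hw
    have uq : ∀ u, (g u).1 = 2 → u = w := fun u e => hg (by
      have t1 := hT u
      have t2 := hT w
      rw [t1.resolve_left (by omega), t2.resolve_left (by omega)])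
    obtain ⟨K, k1, k2, k3⟩ := c2 (H.erase w) fun u hu e => (Finset.mem_erase.1 hu).1 (uq u e)
    have nK : w ∉ K := fun h => by simpa using k1 h
    refine fin (insert w K) (Finset.insert_subset w1 (k1.trans (Finset.erase_subset _ _))) ?_ ?_
    · rw [Finset.coe_insert]
      exact k2.insert fun v _ e => (hA _ _).2 ⟨e, .inl w2⟩
    · rw [← Finset.insert_erase w1, Finset.image_insert, Finset.card_insert_of_notMem nK]
      have := Finset.card_insert_le (col (g w)) ((H.erase w).image fun u => col (g u))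
      omega
  · obtain ⟨K, k1, k2, k3⟩ := c2 H (by simpa using hw)
    exact fin K k1 k2 k3

theorem bwd [Fintype V] (hv : ∀ C ∈ a.2, ∀ x ∈ C.vars, x < ww a) (hT : ∀ u, T a (g u)) (hS : ∀ p, T a p → ∃ u, g u = p)
    (hA : ∀ u v, G.Adj u v ↔ u ≠ v ∧ adj a (g u) (g v)) (h : DiscC G (kk a)) : ¬Q3 a.1.length a.2 := by
  classical
  intro Q
  obtain ⟨c, hc⟩ := h
  obtain ⟨w, hw⟩ := hS _ (.inr rfl)
  have hI := ind G _ c w (fun v e => (hA _ _).2 ⟨e.symm, .inl (by rw [hw])⟩) hc
  have : Nonempty V := ⟨w⟩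
  choose! s hs using hS
  have b1 : ∀ t i o : ℕ, t ≠ 2 → ((Finset.univ.filter fun u => (g u).1 = t ∧ (g u).2.1 = i ∧
      (t = 1 → ((g u).2.2.1 = 0 ↔ o = 0))).image c).card ≤ kk a + 1 := fun t i o ht => by
    refine hI _ (by simp [hw]; omega) fun u hu v hv e => ?_
    simp only [Finset.mem_filter, Finset.mem_univ, true_and] at hu hv
    rcases ((hA _ _).1 e).2 with e | e | e | ⟨e1, e2, e⟩ <;> try omega
    have t1 := (hT u).resolve_right (by intro h; rw [h] at hu; simp at hu; omega)
    have t2 := (hT v).resolve_right (by intro h; rw [h] at hv; simp at hv; omega)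
    have e3 : (g u).1 = 1 := by omega
    have e4 : (g v).1 = 1 := by omega
    have : (g u).2.1 < ww a := by unfold ww; omega
    simp only [lit, e3, e4, one_ne_zero, if_false] at e1 e2
    split_ifs at e1 e2 <;> simp at e1 e2 <;> omega
  let A : Finset ℕ := ((Finset.range (a.2.length + 2)).biUnion fun i => (Finset.univ.filter fun u => (g u).1 = 0 ∧
      (g u).2.1 = i ∧ (0 = 1 → ((g u).2.2.1 = 0 ↔ 0 = 0))).image c) ∪
    (((Finset.range a.1.length).biUnion fun i => (Finset.univ.filter fun u => (g u).1 = 1 ∧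
      (g u).2.1 = i ∧ (1 = 1 → ((g u).2.2.1 = 0 ↔ 0 = 0))).image c) ∪
    ((Finset.range a.1.length).biUnion fun i => (Finset.univ.filter fun u => (g u).1 = 1 ∧
      (g u).2.1 = i ∧ (1 = 1 → ((g u).2.2.1 = 0 ↔ 1 = 0))).image c))
  have cA : A.card < rr a := by
    refine ((Finset.card_union_le _ _).trans (add_le_add (Finset.card_biUnion_le_card_mul _ _ _ fun i _ =>
      b1 0 i 0 (by omega)) ((Finset.card_union_le _ _).trans (add_le_add (Finset.card_biUnion_le_card_mul _ _ _
      fun i _ => b1 1 i 0 (by omega)) (Finset.card_biUnion_le_card_mul _ _ _ fun i _ => b1 1 i 1 (by omega)))))).trans_lt ?_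
    simp only [Finset.card_range, rr, kk]; nlinarith
  have mA : ∀ u, (g u).1 ≠ 2 → c u ∈ A := fun u e => by
    have t1 := (hT u).resolve_right (by intro h; rw [h] at e; simp at e)
    simp only [A, Finset.mem_union, Finset.mem_biUnion, Finset.mem_range, Finset.mem_image, Finset.mem_filter]
    rcases t1.1 with h | h
    · exact .inl ⟨_, h.2, u, by simp [h.1], rfl⟩
    · by_cases o : (g u).2.2.1 = 0
      · exact .inr (.inl ⟨_, h.2, u, by simp [h.1, o], rfl⟩)
      · exact .inr (.inr ⟨_, h.2, u, by simp [h.1, o], rfl⟩)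
  obtain ⟨j, j1, j2⟩ : ∃ j < rr a, ∀ u v, (g u).1 ≠ 2 → (g u).2.2.2 = j → (g v).2.2.2 = j →
      ((g u).1 ≠ (g v).1 ∨ (g u).2.1 ≠ (g v).2.1) → c u ≠ c v := by
    by_contra! n
    choose! p q h1 h2 h3 h4 h5 using n
    refine absurd (Finset.card_le_card_of_injOn (s := Finset.range (rr a)) (t := A) (fun j => c (p j))
      (fun j hj => mA _ (h1 j (by simpa using hj))) fun i hi j hj e => ?_) (by simpa using cA)
    have hi : i < rr a := by simpa using hi
    have hj : j < rr a := by simpa using hj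
    by_contra ne
    have a1 := h2 i hi
    have a2 := h2 j hj
    have a3 := h3 j hj
    have a4 := h4 j hj
    by_cases e1 : (g (p i)).1 ≠ (g (p j)).1 ∨ (g (p i)).2.1 ≠ (g (p j)).2.1
    · exact c.valid ((hA _ _).2 ⟨by rintro e; rw [e] at a1; omega, .inr (.inr (.inl ⟨e1, by omega⟩))⟩) e
    · exact c.valid ((hA _ _).2 ⟨by rintro e; rw [e] at a1; omega, .inr (.inr (.inl ⟨by omega, by omega⟩))⟩)
        (e.trans (h5 j hj))
  have t1 : ∀ i < a.1.length, ∀ o < 3, g (s (1, i, o, j)) = (1, i, o, j) := fun i hi o ho =>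
    hs _ (.inl ⟨.inr ⟨rfl, hi⟩, ho, j1⟩)
  have t0 : ∀ i < a.2.length + 2, ∀ o < 3, g (s (0, i, o, j)) = (0, i, o, j) := fun i hi o ho =>
    hs _ (.inl ⟨.inl ⟨rfl, hi⟩, ho, j1⟩)
  obtain ⟨v, v1, v2⟩ := Q fun i => decide (c (s (1, i, 1, j)) ≠ c (s (1, i, 2, j)))
  let v' : ℕ → Bool := fun y => if y = ww a then true else v y
  have v3 : ∀ i, ∃ o < 3, v' (lit a (0, i, o, j)).1 = (lit a (0, i, o, j)).2 := fun i => by
    by_cases hi : i < a.2.length
    · have e4 : cl a i = a.2[i] := by simp [cl, List.getD_eq_getElem?_getD, hi]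
      have := hv _ (List.getElem_mem hi)
      simp only [Cl3.vars, List.forall_mem_cons] at this
      rcases v2 _ (List.getElem_mem hi) with h | h | h
      · exact ⟨0, by omega, by simp [lit, e4, v', this.1.ne, h]⟩
      · exact ⟨1, by omega, by simp [lit, e4, v', this.2.1.ne, h]⟩
      · exact ⟨2, by omega, by simp [lit, e4, v', this.2.2.1.ne, h]⟩
    · exact ⟨0, by omega, by simp [lit, cl, v', List.getD_eq_getElem?_getD, List.getElem?_eq_none (not_lt.1 hi)]⟩
  choose o o1 o2 using v3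
  have tb : ∀ b : Bool, b.toNat ≤ 1 := Bool.toNat_le
  let P : Finset W := (Finset.range (a.2.length + 2)).image (fun i => (0, i, o i, j)) ∪
    ((Finset.range a.1.length).image (fun i => (1, i, 2, j)) ∪
      (Finset.range a.1.length).image (fun i => (1, i, (v i).toNat, j)))
  have mP : ∀ p ∈ P, g (s p) = p ∧ p.1 ≠ 2 ∧ p.2.2.2 = j ∧ v' (lit a p).1 = (lit a p).2 := fun p hp => by
    simp only [P, Finset.mem_union, Finset.mem_image, Finset.mem_range] at hp
    rcases hp with ⟨i, hi, rfl⟩ | ⟨i, hi, rfl⟩ | ⟨i, hi, rfl⟩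
    · exact ⟨t0 i hi _ (o1 i), by simp, rfl, o2 i⟩
    · exact ⟨t1 i hi _ (by omega), by simp, rfl, by simp [lit, v']⟩
    · have : i ≠ ww a := by unfold ww; omega
      exact ⟨t1 i hi _ (by have := tb (v i); omega), by simp, rfl, by cases h : v i <;> simp [lit, v', h, this]⟩
  have zz : ∀ i < a.1.length, c (s (1, i, (v i).toNat, j)) ≠ c (s (1, i, 2, j)) := fun i hi => by
    have := v1 i hi
    cases h : v i
    · simp only [h, ne_eq, false_eq_decide_iff, not_not] at this
      rw [← this]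
      refine c.valid ((hA _ _).2 ⟨fun e => ?_, ?_⟩)
      · have := congrArg g e
        rw [t1 i hi _ (by simp), t1 i hi _ (by simp)] at this
        simp at this
      · rw [t1 i hi _ (by simp), t1 i hi _ (by simp)]
        simp [adj, lit]
    · simpa [h] using this
  have b2 := hI (P.image s) (by
    simp only [Finset.mem_image, not_exists, not_and]
    rintro p hp rfl
    have := mP p hp
    rw [hw] at this
    exact this.2.1 (by rw [← this.1])) (by
    simp only [Finset.forall_mem_image]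
    intro p hp q hq e
    obtain ⟨p1, p2, p3, p4⟩ := mP p hp
    obtain ⟨q1, q2, q3, q4⟩ := mP q hq
    have e := ((hA _ _).1 e).2
    rw [p1, q1] at e
    rcases e with e | e | e | ⟨e1, e2, -⟩
    · exact p2 e
    · exact q2 e
    · omega
    · exact e2 (by rw [← p4, ← q4, e1]))
  rw [Finset.image_image, Finset.card_image_of_injOn, Finset.card_union_of_disjoint, Finset.card_union_of_disjoint,
    Finset.card_image_of_injective, Finset.card_image_of_injective, Finset.card_image_of_injective] at b2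
  · simp [kk] at b2; omega
  · intro i j e; simp at e; exact e.1
  · intro i j e; simpa using e
  · intro i j e; simp at e; exact e.1
  · simp only [Finset.disjoint_left, Finset.mem_image, not_exists, not_and]
    rintro _ ⟨i, -, rfl⟩ k - e
    have := tb (v k)
    simp at e; omega
  · simp only [Finset.disjoint_left, Finset.mem_image, Finset.mem_union]
    rintro _ ⟨i, -, rfl⟩ (⟨k, -, e⟩ | ⟨k, -, e⟩) <;> simp at e
  · intro p hp q hq e
    obtain ⟨p1, p2, p3, -⟩ := mP p hp
    obtain ⟨q1, q2, q3, -⟩ := mP q hq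
    have := j2 (s p) (s q) (by rwa [p1]) (by rwa [p1]) (by rwa [q1])
    rw [p1, q1] at this
    have e2 : p.1 = q.1 ∧ p.2.1 = q.2.1 := by by_contra h; exact this (by omega) e
    simp only [P, Finset.coe_union, Finset.coe_image, Set.mem_union, Set.mem_image, Finset.mem_coe,
      Finset.mem_range] at hp hq
    rcases hp with ⟨i, hi, rfl⟩ | ⟨i, hi, rfl⟩ | ⟨i, hi, rfl⟩ <;>
      rcases hq with ⟨k, hk, rfl⟩ | ⟨k, hk, rfl⟩ | ⟨k, hk, rfl⟩ <;> simp at e2 <;> subst e2 <;>
      first | rfl | exact absurd e (zz _ hi) | exact absurd e.symm (zz _ hi)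

def vs (a : I) : List W :=
  (2, 0, 0, 0) :: (((List.range (a.2.length + 2)).map (fun i => (0, i)) ++
    (List.range a.1.length).map (fun i => (1, i))).flatMap fun p : ℕ × ℕ =>
      (List.range 3 ×ˢ List.range (rr a)).map fun q => (p.1, p.2, q))

theorem mem_vs (a u) : u ∈ vs a ↔ T a u := by
  obtain ⟨t, i, o, j⟩ := u
  simp only [vs, T, List.mem_cons, List.mem_flatMap, List.mem_append, List.mem_map, List.mem_range]
  rw [or_comm]
  refine or_congr ⟨?_, fun h => ⟨(t, i), ?_, (o, j), by simpa using h.2, rfl⟩⟩ Iff.rfl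
  · rintro ⟨_, ⟨k, h, rfl⟩ | ⟨k, h, rfl⟩, ⟨b, d⟩, h2, e⟩ <;> simp at h2 e <;> omega
  · rcases h.1 with ⟨rfl, h1⟩ | ⟨rfl, h1⟩
    · exact .inl ⟨i, h1, rfl⟩
    · exact .inr ⟨i, h1, rfl⟩

def gr (a : I) : Gr := mkGr (vs a) ((vs a ×ˢ vs a).filter fun e => adj a e.1 e.2)

theorem gr_adj (a u v) : (gr a).G.Adj u v ↔ u ≠ v ∧ adj a (mkGrEquiv _ _ u).1 (mkGrEquiv _ _ v).1 := by
  have : ∀ u v, (gr a).arc u v ↔ adj a (mkGrEquiv _ _ u).1 (mkGrEquiv _ _ v).1 := fun u v => by
    refine (mkGr_arc _ _ u v).trans ?_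
    simp only [List.mem_filter, decide_eq_true_eq, and_iff_right_iff_imp]
    exact fun _ => List.pair_mem_product.2 ⟨(mkGrEquiv _ _ u).2, (mkGrEquiv _ _ v).2⟩
  exact and_congr Iff.rfl ((or_congr (this u v) (this v u)).trans ⟨fun h => h.elim id adj_symm, .inl⟩)

set_option synthInstance.maxSize 2000 in
theorem pt_gr : PT fun a => (gr a, kk a) := by unfold gr vs adj lit cl rr kk ww; fun_prop

theorem main (n φ) (hv : ∀ C ∈ φ, ∀ x ∈ C.vars, x < n.length + 3 * φ.length) :
    (¬Q3 n.length φ → Disc (gr (n, φ)).G (kk (n, φ))) ∧ (DiscC (gr (n, φ)).G (kk (n, φ)) → ¬Q3 n.length φ) :=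
  ⟨fwd _ (n, φ) _ (fun _ _ e => (mkGrEquiv _ _).injective (Subtype.ext e))
    (fun u => (mem_vs _ _).1 (mkGrEquiv _ _ u).2) (gr_adj _),
   bwd _ (n, φ) _ hv (fun u => (mem_vs _ _).1 (mkGrEquiv _ _ u).2)
    (fun p hp => ⟨(mkGrEquiv _ _).symm ⟨p, (mem_vs _ _).2 hp⟩, by simp⟩) (gr_adj _)⟩

theorem weak {V : Type} {G : SimpleGraph V} {k} (h : Disc G k) : DiscC G k := h.imp fun _ h H _ => h H

theorem hard1 : Sig2Hard fun a : Gr × ℕ => Disc a.1.G a.2 :=
  Sig2Hard.of_q3 _ pt_gr fun n φ hv => ⟨(main n φ hv).1, fun h => (main n φ hv).2 (weak h)⟩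

theorem hard2 : Sig2Hard fun a : Gr × ℕ => DiscC a.1.G a.2 :=
  Sig2Hard.of_q3 _ pt_gr fun n φ hv => ⟨fun h => weak ((main n φ hv).1 h), (main n φ hv).2⟩

end Pool.Agent.H.MP_e16607_lc
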