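import Pool.Agent.Lib.helper25.CX2Defs
import Pool.Agent.Lib.lead.CXGraph

namespace Pool.Agent.H.MP_e16607_lc

open Pool.Agent.Lib.CX

/-- the chromatic discrepancy of `G` is at most `k` -/
def Disc {V : Type} (G : SimpleGraph V) (k : ℕ) : Prop :=
  ∃ c : G.Coloring ℕ, ∀ H : Finset V, ((H.image c).card : ℕ∞) ≤ (G.induce H).chromaticNumber + k

/-- the chromatic discrepancy of `G` over connected induced subgraphs is at most `k` -/
def DiscC {V : Type} (G : SimpleGraph V) (k : ℕ) : Prop :=
  ∃ c : G.Coloring ℕ, ∀ H : Finset V, (G.induce H).Connected →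
    ((H.image c).card : ℕ∞) ≤ (G.induce H).chromaticNumber + k

end Pool.Agent.H.MP_e16607_lc
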